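import Pool.Agent.Helper75.CR.St

/-!
# Project CR, module H2: two congruences of type one
-/

set_option autoImplicit false

namespace Pool.Agent.Helper29.CR

open Pool.Agent.Helper75.CR

/-- Type one and `[a]`, `[c]` related: all words of the same content starting with `a`, `c` are related. -/
theorem h2_aux {B : Type} {S : Sgn B} {θ ρ : Pg S} (hB : StB) (hθ : Bs S θ) (hρ : LeP θ ρ) (hcp : CP ρ)
    (hA : AA ρ) (a c : ℕ × B) (u' v' : Wo B) (hac : Er ρ [a] [c]) (hcn : cn (a :: u') = cn (c :: v')) :
    Er ρ (a :: u') (c :: v') := by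
  obtain ⟨h0, h1, ⟨p, hp⟩, q, hq⟩ := hac
  have e1 : ρ.r (a :: (p ++ v')) (c :: v') := by simpa using ρ.mulR v' hp
  have e2 : Er ρ (a :: (p ++ v')) (c :: v') := Er.of hcp (by simp) e1
  have e3 : Er ρ (a :: u') (a :: (p ++ v')) :=
    hB B S θ ρ hθ hρ hA a u' (p ++ v') (hcn.trans (hcp _ _ e1).symm)
  exact e3.trans e2

theorem hH2 (hB : StB) (hC : StC) (hD : StD) : StH2 := by
  intro B S θ hθ α β hα hβ cα cβ Aα Aβ u w v h1 h2
  have hu := h1.ne
  have hw := h1.ne2
  have hv := h2.ne2
  have cuv := h1.cn.trans h2.cn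
  suffices h : Er α u v ∨ Er β u v by
    rcases h with h | h
    · exact ⟨u, Er.rfl' β hu, h⟩
    · exact ⟨v, h, Er.rfl' α hv⟩
  cases u with
  | nil => exact absurd rfl hu
  | cons a u' =>
    cases w with
    | nil => exact absurd rfl hw
    | cons b w' =>
      cases v with
      | nil => exact absurd rfl hv
      | cons c v' =>
        by_cases hab : a.1 = b.1
        swap
        · exact Or.inl (hC B S θ α hθ hα a b u' w' hab h1 _ _ hu cuv)
        by_cases hbc : b.1 = c.1
        swap
        · exact Or.inr (hC B S θ β hθ hβ b c w' v' hbc h2 _ _ hu cuv)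
        by_cases hac : a = c
        · subst hac
          exact Or.inl (hB B S θ α hθ hα Aα a u' v' cuv)
        have hac1 : a.1 = c.1 := hab.trans hbc
        have hc : ([(a.1, c.2)] : Wo B) = [c] := by rw [hac1]
        by_cases hab' : a = b
        · have hbc' : b ≠ c := fun h => hac (hab'.trans h)
          have h := hD B S θ β hθ hβ b c w' v' hbc hbc' h2 a.1 a.2 c.2
          rw [hc] at h
          exact Or.inr (h2_aux hB hθ hβ cβ Aβ a c u' v' h cuv)
        · have h := hD B S θ α hθ hα a b u' w' hab hab' h1 a.1 a.2 c.2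
          rw [hc] at h
          exact Or.inl (h2_aux hB hθ hα cα Aα a c u' v' h cuv)

end Pool.Agent.Helper29.CR
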